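import Mathlib

/-!
# Chains of interlocked letters and rich words
-/

namespace Pool.Agent.Lib.MP_235015_lc.All

variable {A : Type}

/-- The possible tails of a word of the pattern after the letters `a`, `b` have been read, the
letters still to be read for the first time being `gs`. -/
def Tl : A → A → List A → List A → Prop
  | a, _, [], z => ∃ w w' : List A, w ≠ [] ∧ w' ≠ [] ∧ z = w ++ a :: w'
  | a, b, g :: gs, z => ∃ w w' z' : List A, w ≠ [] ∧ w' ≠ [] ∧ z = w ++ a :: (w' ++ g :: z') ∧
      Tl b g gs z'

/-- The last letter of `b :: gs` is `d`. -/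
def LastIs (d : A) : A → List A → Prop
  | b, [] => b = d
  | _, g :: gs => LastIs d g gs

lemma lastIs_append (d : A) (l1 l2 : List A) (b c : A) :
    LastIs d b (l1 ++ c :: l2) ↔ LastIs d c l2 := by
  induction l1 generalizing b with
  | nil => rfl
  | cons a l ih => exact ih a

lemma Tl.prepend {a b : A} {gs z : List A} (y : List A) (h : Tl a b gs z) :
    Tl a b gs (y ++ z) := by
  cases gs with
  | nil =>
    obtain ⟨w, w', hw, hw', rfl⟩ := h
    exact ⟨y ++ w, w', by simp [hw], hw', by simp⟩
  | cons g gs =>
    obtain ⟨w, w', z', hw, hw', rfl, h⟩ := h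
    exact ⟨y ++ w, w', z', by simp [hw], hw', by simp, h⟩

lemma Tl.swap {a b : A} {gs z : List A} (h : Tl a b gs z) (p : A) {y1 : List A} (y2 : List A)
    (hy1 : y1 ≠ []) : Tl p b gs (y1 ++ p :: (y2 ++ z)) := by
  cases gs with
  | nil =>
    obtain ⟨w, w', hw, hw', rfl⟩ := h
    exact ⟨y1, y2 ++ (w ++ a :: w'), hy1, by simp, rfl⟩
  | cons g gs =>
    obtain ⟨w, w', z', hw, hw', rfl, h⟩ := h
    exact ⟨y1, y2 ++ (w ++ a :: w'), z', hy1, by simp, by simp, h⟩

lemma Tl.state (gs1 : List A) : ∀ {a b g : A} {gs2 z : List A}, Tl a b (gs1 ++ g :: gs2) z →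
    ∃ (w y z' : List A) (a' : A), w ≠ [] ∧ y ≠ [] ∧ z = w ++ a :: (y ++ g :: z') ∧
      Tl a' g gs2 z' := by
  induction gs1 with
  | nil =>
    intro a b g gs2 z h
    obtain ⟨w, w', z', hw, hw', rfl, h⟩ := h
    exact ⟨w, w', z', b, hw, hw', rfl, h⟩
  | cons c gs1 ih =>
    intro a b g gs2 z h
    obtain ⟨w, w', z', hw, hw', rfl, h⟩ := h
    obtain ⟨w2, y2, z2, a', hw2, hy2, rfl, h2⟩ := ih h
    exact ⟨w, w' ++ c :: (w2 ++ b :: y2), z2, a', hw, by simp, by simp, h2⟩

lemma Tl.cut {a b : A} {gs1 gs2 z : List A} (h : Tl a b (gs1 ++ b :: gs2) z) :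
    Tl a b gs2 z := by
  obtain ⟨w, y, z', a', hw, hy, rfl, h'⟩ := Tl.state gs1 h
  have := h'.swap a (y1 := w) (y ++ [b]) hw
  simpa using this

/-- Cutting all repetitions out of a chain. -/
lemma Tl.cutAll (d : A) : ∀ (gs : List A) (a b : A) (z : List A), Tl a b gs z → LastIs d b gs →
    ∃ gs' : List A, Tl a b gs' z ∧ (b :: gs').Nodup ∧ LastIs d b gs' ∧
      (gs' = gs ∨ gs'.length < gs.length) ∧ ∀ g ∈ gs', g ∈ gs := by
  intro gs
  induction gs with
  | nil =>
    intro a b z h hl
    exact ⟨[], h, by simp, hl, Or.inl rfl, by simp⟩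
  | cons g gs ih =>
    intro a b z h hl
    obtain ⟨w, w', z', hw, hw', rfl, h'⟩ := h
    obtain ⟨gs', h1, h2, h3, h4, h5⟩ := ih b g z' h' hl
    have hT : Tl a b (g :: gs') (w ++ a :: (w' ++ g :: z')) := ⟨w, w', z', hw, hw', rfl, h1⟩
    by_cases hb : b ∈ g :: gs'
    · obtain ⟨l1, l2, hl12⟩ := List.append_of_mem hb
      rw [hl12] at hT h2
      have hlast : LastIs d b l2 := by
        have : LastIs d b (g :: gs') := h3
        rw [hl12, lastIs_append] at this
        exact this
      refine ⟨l2, hT.cut, ?_, hlast, Or.inr ?_, ?_⟩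
      · exact (List.nodup_append.mp h2).2.1
      · have hlen := congrArg List.length hl12
        simp only [List.length_cons, List.length_append] at hlen ⊢
        rcases h4 with h4 | h4
        · rw [h4] at hlen
          omega
        · omega
      · intro c hc
        have hc' : c ∈ g :: gs' := by rw [hl12]; simp [hc]
        rcases List.mem_cons.mp hc' with h | h
        · simp [h]
        · exact List.mem_cons_of_mem _ (h5 c h)
    · refine ⟨g :: gs', hT, List.nodup_cons.mpr ⟨hb, h2⟩, h3, ?_, ?_⟩
      · rcases h4 with h4 | h4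
        · left
          rw [h4]
        · right
          simp only [List.length_cons]
          omega
      · intro c hc
        rcases List.mem_cons.mp hc with h | h
        · simp [h]
        · exact List.mem_cons_of_mem _ (h5 c h)

/-- `y` contains `n` separated occurrences of the factor `s c t`. -/
def Rich (s c t : A) : ℕ → List A → Prop
  | 0, _ => True
  | n + 1, y => ∃ a b : List A, a ≠ [] ∧ y = a ++ s :: c :: t :: b ∧ Rich s c t n b

lemma Rich.mono {s c t : A} : ∀ {m n : ℕ} {y : List A}, m ≤ n → Rich s c t n y →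
    Rich s c t m y := by
  intro m
  induction m with
  | zero =>
    intro n y _ _
    trivial
  | succ m ih =>
    intro n y hmn h
    obtain ⟨n', rfl⟩ : ∃ n', n = n' + 1 := ⟨n - 1, by omega⟩
    obtain ⟨a, b, ha, rfl, hb⟩ := h
    exact ⟨a, b, ha, rfl, ih (by omega) hb⟩

lemma Rich.prepend {s c t : A} {n : ℕ} {y : List A} (u : List A) (h : Rich s c t n y) :
    Rich s c t n (u ++ y) := by
  cases n with
  | zero => trivial
  | succ n =>
    obtain ⟨a, b, ha, rfl, hb⟩ := h
    exact ⟨u ++ a, b, by simp [ha], by simp, hb⟩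

lemma Rich.ne_nil {s c t : A} {n : ℕ} {y : List A} (h : Rich s c t (n + 1) y) : y ≠ [] := by
  obtain ⟨a, b, ha, rfl, hb⟩ := h
  simp

/-- The number of windows of `y` that carry the given triple. -/
def cnt [DecidableEq A] (τ : A × A × A) : List A → ℕ
  | _ :: a :: b :: c :: l => (if (a, b, c) = τ then 1 else 0) + cnt τ l
  | _ => 0

lemma rich_of_cnt [DecidableEq A] (τ : A × A × A) : ∀ (k : ℕ) (l : List A) (n : ℕ),
    l.length ≤ k → n ≤ cnt τ l → Rich τ.1 τ.2.1 τ.2.2 n l := by
  intro k
  induction k with
  | zero =>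
    intro l n hl hn
    have : l = [] := List.length_eq_zero_iff.mp (by omega)
    subst this
    have : n = 0 := by simpa [cnt] using hn
    subst this
    trivial
  | succ k ih =>
    intro l n hl hn
    match l, hl, hn with
    | [], _, hn =>
      have : n = 0 := by simpa [cnt] using hn
      subst this
      trivial
    | [_], _, hn =>
      have : n = 0 := by simpa [cnt] using hn
      subst this
      trivial
    | [_, _], _, hn =>
      have : n = 0 := by simpa [cnt] using hn
      subst this
      trivial
    | [_, _, _], _, hn =>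
      have : n = 0 := by simpa [cnt] using hn
      subst this
      trivial
    | e :: a :: b :: c :: l, hl, hn =>
      simp only [cnt] at hn
      simp only [List.length_cons] at hl
      by_cases h : (a, b, c) = τ
      · cases n with
        | zero => trivial
        | succ n =>
          rw [if_pos h] at hn
          have h1 := ih l n (by omega) (by omega)
          refine ⟨[e], l, by simp, ?_, h1⟩
          rw [← h]
          rfl
      · rw [if_neg h] at hn
        have h1 := ih l n (by omega) (by omega)
        exact h1.prepend [e, a, b, c]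

lemma sum_cnt [DecidableEq A] [Fintype A] : ∀ (k : ℕ) (l : List A), l.length ≤ k →
    l.length / 4 = ∑ τ : A × A × A, cnt τ l := by
  intro k
  induction k with
  | zero =>
    intro l hl
    have : l = [] := List.length_eq_zero_iff.mp (by omega)
    subst this
    simp [cnt]
  | succ k ih =>
    intro l hl
    match l, hl with
    | [], _ => simp [cnt]
    | [_], _ => simp [cnt]
    | [_, _], _ => simp [cnt]
    | [_, _, _], _ => simp [cnt]
    | e :: a :: b :: c :: l, hl =>
      simp only [List.length_cons] at hl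
      have h1 := ih l (by omega)
      simp only [cnt, Finset.sum_add_distrib, ← h1]
      simp only [List.length_cons, Finset.sum_ite_eq, Finset.mem_univ, if_true]
      omega

lemma exists_rich [Fintype A] (n : ℕ) : ∃ N : ℕ, ∀ y : List A, N ≤ y.length →
    ∃ s c t : A, Rich s c t n y := by
  classical
  refine ⟨4 * (Fintype.card (A × A × A) * n + 1), fun y hy => ?_⟩
  by_contra hcon
  have hall : ∀ τ : A × A × A, cnt τ y ≤ n := by
    intro τ
    by_contra hτ
    exact hcon ⟨τ.1, τ.2.1, τ.2.2, rich_of_cnt τ y.length y n (le_refl _) (by omega)⟩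
  have h1 := sum_cnt y.length y (le_refl _)
  have h2 : ∑ τ : A × A × A, cnt τ y ≤ ∑ _τ : A × A × A, n :=
    Finset.sum_le_sum (fun τ _ => hall τ)
  simp only [Finset.sum_const, Finset.card_univ, smul_eq_mul] at h2
  omega

end Pool.Agent.Lib.MP_235015_lc.All
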