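import Mathlib
import Pool.Agent.Lib.MP_235015_lc.All.Chain

/-!
# Matches and short matches
-/

namespace Pool.Agent.Lib.MP_235015_lc.All

variable {A : Type}

/-- `w` is matched with main word `x`, letters `s`, `t` around the second copy of `x` and chain
`gs` (of length `r`, the last letter of `t :: gs` being `d`). -/
def IsM (d : A) (r : ℕ) (x : List A) (s t : A) (gs w : List A) : Prop :=
  gs.length = r ∧ LastIs d t gs ∧ ∃ w0 w1 z : List A, w0 ≠ [] ∧ w1 ≠ [] ∧
    w = w0 ++ (x ++ (w1 ++ s :: (x ++ t :: z))) ∧ Tl s t gs z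

lemma climbTl {s c t g : A} {gs rest : List A} (hs : Tl s g gs rest) (ht : Tl t g gs rest)
    (Y : List A) : ∀ (j : ℕ) (a b : A) (y : List A), (a = s ∨ a = t) → (b = s ∨ b = t) →
    Rich s c t (2 * j + 2) y →
    Tl a b (List.replicate j s ++ g :: gs) (y ++ (Y ++ g :: rest)) := by
  intro j
  induction j with
  | zero =>
    intro a b y ha hb hy
    obtain ⟨a1, b1, ha1, rfl, hb1⟩ := hy
    have hb1' := hb1.ne_nil
    have hT : Tl b g gs rest := by
      rcases hb with rfl | rfl
      · exact hs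
      · exact ht
    rcases ha with rfl | rfl
    · exact ⟨a1, c :: t :: (b1 ++ Y), rest, ha1, by simp, by simp, hT⟩
    · exact ⟨a1 ++ [s, c], b1 ++ Y, rest, by simp, by simp [hb1'], by simp, hT⟩
  | succ j ih =>
    intro a b y ha hb hy
    obtain ⟨a1, b1, ha1, rfl, hb1⟩ := hy
    obtain ⟨a2, b2, ha2, rfl, hb2⟩ := hb1
    have hb2' : Rich s c t (2 * j + 2) b2 := hb2
    have h1 := (ih b s b2 hb (Or.inl rfl) hb2').prepend [c, t]
    rcases ha with rfl | rfl
    · exact ⟨a1, c :: t :: a2, [c, t] ++ (b2 ++ (Y ++ g :: rest)), ha1, by simp, by simp, h1⟩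
    · exact ⟨a1 ++ [s, c], a2, [c, a] ++ (b2 ++ (Y ++ g :: rest)), by simp, ha2, by simp, h1⟩

lemma climb {d : A} {r : ℕ} {s c t g : A} {w w0 y Y rest gs : List A}
    (hrich : Rich s c t (2 * r + 4) y) (hlen : gs.length < r) (hlast : LastIs d g gs)
    (hw : w = w0 ++ (y ++ (Y ++ g :: rest))) (hs : Tl s g gs rest) (ht : Tl t g gs rest) :
    ∃ (c' s' t' : A) (gs' : List A), IsM d r [c'] s' t' gs' w := by
  obtain ⟨a1, b1, ha1, rfl, hb1⟩ := hrich
  obtain ⟨a2, b2, ha2, rfl, hb2⟩ := hb1
  refine ⟨c, s, t, List.replicate (r - 1 - gs.length) s ++ g :: gs, ?_, ?_, w0 ++ (a1 ++ [s]),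
    t :: a2, b2 ++ (Y ++ g :: rest), by simp, by simp, ?_, ?_⟩
  · simp
    omega
  · rw [lastIs_append]
    exact hlast
  · rw [hw]
    simp
  · exact climbTl hs ht Y _ s t b2 (Or.inl rfl) (Or.inr rfl) (hb2.mono (by omega))

/-- Both outer letters of a rich word occur strictly inside it. -/
lemma Rich.inside {s c t : A} {n : ℕ} {y : List A} (h : Rich s c t (n + 2) y) :
    (∃ al be : List A, al ≠ [] ∧ be ≠ [] ∧ y = al ++ s :: be) ∧
    (∃ al be : List A, al ≠ [] ∧ be ≠ [] ∧ y = al ++ t :: be) := by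
  obtain ⟨a, b, ha, rfl, hb⟩ := h
  have hb' := hb.ne_nil
  exact ⟨⟨a, c :: t :: b, ha, by simp, rfl⟩, ⟨a ++ [s, c], b, by simp, hb', by simp⟩⟩

/-- Words avoiding all but one letter are unary. -/
lemma unary_of_avoid_list [Fintype A] {r : ℕ} (hA : Fintype.card A = r + 3) {L : List A}
    (hL : L.Nodup) (hlen : L.length = r + 2) :
    ∃ l : A, ∀ y : List A, (∀ a ∈ y, a ∉ L) → y = List.replicate y.length l := by
  classical
  have hcard : (Finset.univ \ L.toFinset : Finset A).card = 1 := by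
    rw [Finset.card_sdiff_of_subset (Finset.subset_univ _), Finset.card_univ, hA,
      List.toFinset_card_of_nodup hL, hlen]
    omega
  obtain ⟨l, hl⟩ := Finset.card_eq_one.mp hcard
  refine ⟨l, fun y hy => ?_⟩
  rw [List.eq_replicate_iff]
  refine ⟨rfl, fun b hb => ?_⟩
  have : b ∈ (Finset.univ \ L.toFinset : Finset A) := by
    simp only [Finset.mem_sdiff, Finset.mem_univ, true_and, List.mem_toFinset]
    exact hy b hb
  rw [hl] at this
  simpa using this

lemma exists_last_three' (y : List A) (hy : 3 ≤ y.length) :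
    ∃ (y1 : List A) (g u c : A), y = y1 ++ [g, u, c] := by
  refine ⟨y.take (y.length - 3), y[y.length - 3], y[y.length - 2], y[y.length - 1], ?_⟩
  conv_lhs => rw [← List.take_append_drop (y.length - 3) y]
  congr 1
  rw [List.drop_eq_getElem_cons (by omega), List.drop_eq_getElem_cons (by omega),
    List.drop_eq_getElem_cons (by omega), List.drop_eq_nil_of_le (by omega)]
  congr 3
  · omega
  · congr 1
    omega

/-- First occurrence of a letter with a property. -/
lemma exists_first (P : A → Prop) : ∀ (y : List A), (∃ a ∈ y, P a) →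
    ∃ (y' : List A) (z : A) (y'' : List A), y = y' ++ z :: y'' ∧ P z ∧ ∀ a ∈ y', ¬ P a := by
  intro y
  induction y with
  | nil => rintro ⟨a, ha, _⟩; simp at ha
  | cons b y ih =>
    rintro ⟨a, ha, hP⟩
    by_cases hb : P b
    · exact ⟨[], b, y, rfl, hb, by simp⟩
    · have : ∃ a ∈ y, P a := by
        rcases List.mem_cons.mp ha with rfl | h
        · exact absurd hP hb
        · exact ⟨a, h, hP⟩
      obtain ⟨y', z, y'', rfl, hz, hy'⟩ := ih this
      refine ⟨b :: y', z, y'', rfl, hz, ?_⟩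
      intro c hc
      rcases List.mem_cons.mp hc with rfl | h
      · exact hb
      · exact hy' c h

end Pool.Agent.Lib.MP_235015_lc.All
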