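import Mathlib
import Pool.Agent.Lib.MP_235015_lc.All.Climb

/-!
# The reduction: every word of the language has an almost unary match
-/

namespace Pool.Agent.Lib.MP_235015_lc.All

variable {A : Type}

/-- The reduction: a long match either can be shortened or is almost unary. -/
lemma reduceGen [Fintype A] {r N : ℕ} (hA : Fintype.card A = r + 3)
    (hN : ∀ y : List A, N ≤ y.length → ∃ s c t : A, Rich s c t (2 * r + 4) y)
    (d : A) {w x gs : List A} {s t : A} (h : IsM d r x s t gs w)
    (hx : 2 * N + 6 ≤ x.length) :
    (∃ x' s' t' gs', x' ≠ [] ∧ x'.length < x.length ∧ IsM d r x' s' t' gs' w) ∨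
    (∃ p l n q, p.length ≤ 1 ∧ q.length ≤ 4 ∧ x = p ++ (List.replicate n l ++ q)) := by
  obtain ⟨hgl, hgd, w0, w1, z, h0, h1, hw, hz⟩ := h
  by_contra hcon
  rw [not_or] at hcon
  obtain ⟨hmin, hun⟩ := hcon
  have hmin1 : ¬ ∃ (c s' t' : A) (gs' : List A), IsM d r [c] s' t' gs' w := by
    rintro ⟨c, s', t', gs', hm⟩
    exact hmin ⟨[c], s', t', gs', by simp, by simp; omega, hm⟩
  -- the letter `t` may only occur at the front of `x`
  have hT : ∀ a b, x = a ++ t :: b → a = [] := by
    intro a b hab
    by_contra hne
    refine hmin ⟨a, s, t, gs, hne, by rw [hab]; simp, hgl, hgd, w0, t :: (b ++ w1),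
      (b ++ [t]) ++ z, h0, by simp, ?_, hz.prepend _⟩
    rw [hw, hab]
    simp
  -- the letter `s` may only occur at the end of `x`
  have hS : ∀ a b, x = a ++ s :: b → b = [] := by
    intro a b hab
    by_contra hne
    refine hmin ⟨b, s, t, gs, hne, by rw [hab]; simp; omega, hgl, hgd, w0 ++ (a ++ [s]),
      w1 ++ s :: a, z, by simp, by simp, ?_, hz⟩
    rw [hw, hab]
    simp
  -- the letters of the chain occur neither in `x` nor between the two copies of `x`
  have hC : ∀ g ∈ gs, g ∉ x ∧ g ∉ w1 ++ [s] := by
    intro g hg
    obtain ⟨gs1, gs2, hgs⟩ := List.append_of_mem hg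
    have hlen : gs2.length < r := by
      rw [← hgl, hgs]
      simp
      omega
    have hlast : LastIs d g gs2 := by
      rw [hgs, lastIs_append] at hgd
      exact hgd
    rw [hgs] at hz
    obtain ⟨wz, yz, z', a', hwz, hyz, hzz, hz'⟩ := Tl.state gs1 hz
    constructor
    · intro hgx
      obtain ⟨x1, x2, hx12⟩ := List.append_of_mem hgx
      have hlenx : x.length = x1.length + (x2.length + 1) := by rw [hx12]; simp
      rcases le_or_gt N x1.length with hl | hl
      · obtain ⟨s', c', t', hr⟩ := hN x1 hl
        obtain ⟨⟨al, be, hal, hbe, hsx⟩, ⟨al', be', hal', hbe', htx⟩⟩ := hr.inside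
        apply hmin1
        refine climb (w0 := w0) (Y := []) (g := g) (gs := gs2)
          (rest := x2 ++ (w1 ++ s :: (x1 ++ g :: (x2 ++ t :: z)))) hr hlen hlast ?_ ?_ ?_
        · rw [hw, hx12]
          simp
        · have := hz'.swap s' (y1 := x2 ++ (w1 ++ s :: al))
            (be ++ g :: (x2 ++ t :: (wz ++ s :: (yz ++ [g])))) (by simp)
          have e : x2 ++ (w1 ++ s :: (x1 ++ g :: (x2 ++ t :: z))) =
              (x2 ++ (w1 ++ s :: al)) ++ s' :: ((be ++ g :: (x2 ++ t ::
              (wz ++ s :: (yz ++ [g])))) ++ z') := by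
            rw [hzz, hsx]
            simp
          rw [e]
          exact this
        · have := hz'.swap t' (y1 := x2 ++ (w1 ++ s :: al'))
            (be' ++ g :: (x2 ++ t :: (wz ++ s :: (yz ++ [g])))) (by simp)
          have e : x2 ++ (w1 ++ s :: (x1 ++ g :: (x2 ++ t :: z))) =
              (x2 ++ (w1 ++ s :: al')) ++ t' :: ((be' ++ g :: (x2 ++ t ::
              (wz ++ s :: (yz ++ [g])))) ++ z') := by
            rw [hzz, htx]
            simp
          rw [e]
          exact this
      · obtain ⟨s', c', t', hr⟩ := hN x2 (by omega)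
        obtain ⟨⟨al, be, hal, hbe, hsx⟩, ⟨al', be', hal', hbe', htx⟩⟩ := hr.inside
        apply hmin1
        refine climb (w0 := w0 ++ (x1 ++ [g])) (Y := w1 ++ s :: x1) (g := g) (gs := gs2)
          (rest := x2 ++ t :: z) hr hlen hlast ?_ ?_ ?_
        · rw [hw, hx12]
          simp
        · have := hz'.swap s' (y1 := al) (be ++ t :: (wz ++ s :: (yz ++ [g]))) hal
          have e : x2 ++ t :: z = al ++ s' :: ((be ++ t :: (wz ++ s :: (yz ++ [g]))) ++ z') := by
            rw [hzz, hsx]
            simp
          rw [e]
          exact this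
        · have := hz'.swap t' (y1 := al') (be' ++ t :: (wz ++ s :: (yz ++ [g]))) hal'
          have e : x2 ++ t :: z = al' ++ t' :: ((be' ++ t :: (wz ++ s :: (yz ++ [g]))) ++ z') := by
            rw [hzz, htx]
            simp
          rw [e]
          exact this
    · intro hgw
      obtain ⟨b1, b2, hb⟩ := List.append_of_mem hgw
      obtain ⟨s', c', t', hr⟩ := hN x (by omega)
      obtain ⟨⟨al, be, hal, hbe, hsx⟩, ⟨al', be', hal', hbe', htx⟩⟩ := hr.inside
      have hw2 : w = w0 ++ (x ++ ((w1 ++ [s]) ++ (x ++ t :: z))) := by
        rw [hw]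
        simp
      apply hmin1
      refine climb (w0 := w0) (Y := b1) (g := g) (gs := gs2)
        (rest := b2 ++ (x ++ t :: z)) hr hlen hlast ?_ ?_ ?_
      · rw [hw2, hb]
        simp
      · have := hz'.swap s' (y1 := b2 ++ al) (be ++ t :: (wz ++ s :: (yz ++ [g])))
          (by simp [hal])
        have e : b2 ++ (x ++ t :: z) =
            (b2 ++ al) ++ s' :: ((be ++ t :: (wz ++ s :: (yz ++ [g]))) ++ z') := by
          rw [hzz]
          conv_lhs => rw [hsx]
          simp
        rw [e]
        exact this
      · have := hz'.swap t' (y1 := b2 ++ al') (be' ++ t :: (wz ++ s :: (yz ++ [g])))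
          (by simp [hal'])
        have e : b2 ++ (x ++ t :: z) =
            (b2 ++ al') ++ t' :: ((be' ++ t :: (wz ++ s :: (yz ++ [g]))) ++ z') := by
          rw [hzz]
          conv_lhs => rw [htx]
          simp
        rw [e]
        exact this
  have hsgs : s ∉ gs := by
    intro hs
    exact (hC s hs).2 (by simp)
  -- a rich triple of `x`
  obtain ⟨s', c', t', hr⟩ := hN x (by omega)
  obtain ⟨⟨al, be, hal, hbe, hsx⟩, ⟨al', be', hal', hbe', htx⟩⟩ := hr.inside
  -- decompose `x`
  obtain ⟨x0, mid, g0, hxm⟩ : ∃ x0 mid g, x = x0 :: (mid ++ [g]) := by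
    match x, hx with
    | a :: b :: l, _ =>
      rcases List.eq_nil_or_concat (b :: l) with hnil | ⟨L, c, hc⟩
      · simp at hnil
      · exact ⟨a, L, c, by rw [hc, List.concat_eq_append]⟩
    | [], hx => simp at hx
    | [_], hx => simp at hx
  have htm : t ∉ mid ++ [g0] := by
    intro hmem
    obtain ⟨a, b, hab⟩ := List.append_of_mem hmem
    have := hT (x0 :: a) b (by rw [hxm, hab]; simp)
    simp at this
  have hsm : s ∉ x0 :: mid := by
    intro hmem
    obtain ⟨a, b, hab⟩ := List.append_of_mem hmem
    have h' : x = a ++ s :: (b ++ [g0]) := by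
      rw [hxm]
      have : x0 :: (mid ++ [g0]) = (x0 :: mid) ++ [g0] := by simp
      rw [this, hab]
      simp
    have := hS a (b ++ [g0]) h'
    simp at this
  have hCm : ∀ g ∈ gs, g ∉ mid := by
    intro g hg hmem
    exact (hC g hg).1 (by rw [hxm]; simp [hmem])
  have hlenx : x.length = mid.length + 2 := by rw [hxm]; simp
  -- cut the repetitions of the chain
  obtain ⟨gs', hz', hnd, hl', hlen', hsub⟩ := hz.cutAll d gs s t z hgd
  -- it suffices to have a list of `r + 1` letters and a chain to be used after `s`
  suffices hmain : ∀ (L gs'' : List A), L.Nodup → L.length = r + 1 → (∀ a ∈ L, a = s ∨ a = t ∨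
      a ∈ gs) → s ∈ L → t ∈ L → gs''.length = r → LastIs d s gs'' → (∀ al p be, al ≠ [] → be ≠ [] →
      x = al ++ p :: be → Tl p s gs'' (x ++ t :: z)) → False by
    by_cases hst : s = t
    · -- equal letters: nothing has been cut
      have hgs' : gs' = gs := by
        rcases hlen' with h | h
        · exact h
        · exfalso
          apply hmin1
          refine climb (w0 := w0) (Y := w1) (g := s) (gs := gs') (rest := x ++ t :: z) hr
            (by omega) (by rw [hst]; exact hl') hw ?_ ?_
          · have := hz'.swap s' (y1 := al) (be ++ [t]) hal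
            rw [← hst] at this
            have e : x ++ t :: z = al ++ s' :: ((be ++ [s]) ++ z) := by
              conv_lhs => rw [hsx]
              simp [hst]
            rw [e]
            exact this
          · have := hz'.swap t' (y1 := al') (be' ++ [t]) hal'
            rw [← hst] at this
            have e : x ++ t :: z = al' ++ t' :: ((be' ++ [s]) ++ z) := by
              conv_lhs => rw [htx]
              simp [hst]
            rw [e]
            exact this
      rw [hgs'] at hnd
      refine hmain (t :: gs) gs hnd (by simp [hgl]) ?_ (by rw [hst]; simp) (by simp) hgl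
        (by rw [hst]; exact hgd) ?_
      · intro a ha
        rcases List.mem_cons.mp ha with h | h
        · exact Or.inr (Or.inl h)
        · exact Or.inr (Or.inr h)
      · intro al p be hal hbe hxx
        have := hz.swap p (y1 := al) (be ++ [t]) hal
        rw [← hst] at this
        have e : x ++ t :: z = al ++ p :: ((be ++ [s]) ++ z) := by
          conv_lhs => rw [hxx]
          simp [hst]
        rw [e]
        exact this
    · have hsgs' : s ∉ gs' := fun hs => hsgs (hsub s hs)
      have hnd2 : (s :: t :: gs').Nodup := by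
        rw [List.nodup_cons]
        refine ⟨?_, hnd⟩
        intro hs
        rcases List.mem_cons.mp hs with h | h
        · exact hst h
        · exact hsgs' h
      -- the chain lost at most one letter
      have hge : r ≤ gs'.length + 1 := by
        by_contra hlt
        apply hmin1
        refine climb (w0 := w0) (Y := w1) (g := s) (gs := t :: gs') (rest := x ++ t :: z) hr
          (by simp; omega) hl' hw ?_ ?_
        · refine ⟨al, be, z, hal, hbe, ?_, hz'⟩
          conv_lhs => rw [hsx]
          simp
        · refine ⟨al', be', z, hal', hbe', ?_, hz'⟩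
          conv_lhs => rw [htx]
          simp
      have hle : gs'.length ≤ r := by
        rcases hlen' with h | h
        · rw [h, hgl]
        · omega
      rcases Nat.lt_or_ge gs'.length r with hlt | hge'
      · refine hmain (s :: t :: gs') (t :: gs') hnd2 (by simp; omega) ?_ (by simp) (by simp)
          (by simp; omega) hl' ?_
        · intro a ha
          rcases List.mem_cons.mp ha with h | h
          · exact Or.inl h
          · rcases List.mem_cons.mp h with h | h
            · exact Or.inr (Or.inl h)
            · exact Or.inr (Or.inr (hsub a h))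
        · intro al p be hal hbe hxx
          refine ⟨al, be, z, hal, hbe, ?_, hz'⟩
          conv_lhs => rw [hxx]
          simp
      · -- all letters distinct
        obtain ⟨l, hl⟩ := unary_of_avoid_list hA hnd2 (by simp; omega)
        have := hl mid (by
          intro a ha hmem
          rcases List.mem_cons.mp hmem with h | h
          · exact hsm (by rw [← h]; simp [ha])
          · rcases List.mem_cons.mp h with h | h
            · exact htm (by rw [← h]; simp [ha])
            · exact hCm a (hsub a h) ha)
        exact hun ⟨[x0], l, mid.length, [g0], by simp, by simp, by rw [← this, hxm]; simp⟩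
  -- the remaining case: one coincidence
  intro L gs'' hLnd hLlen hLsub hsL htL hgl'' hgd'' hT''
  -- the first occurrence of `s` or `t` behind the first letter of the first copy
  obtain ⟨y', z0, y'', hy, hz0, hy'⟩ := exists_first (fun a => a = s ∨ a = t)
    (mid ++ (g0 :: (w1 ++ [s]))) ⟨s, by simp, Or.inl rfl⟩
  have hyC : ∀ a ∈ y', a ∉ L := by
    intro a ha haL
    rcases hLsub a haL with h | h | h
    · exact hy' a ha (Or.inl h)
    · exact hy' a ha (Or.inr h)
    · have ha2 : a ∈ mid ++ (g0 :: (w1 ++ [s])) := by rw [hy]; simp [ha]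
      have ha3 : a ∈ x ∨ a ∈ w1 ++ [s] := by
        rw [hxm]
        simp only [List.mem_append, List.mem_cons] at ha2 ⊢
        tauto
      rcases ha3 with h3 | h3
      · exact (hC a h).1 h3
      · exact (hC a h).2 h3
  have hpre : ∃ a', y' = mid ++ a' := by
    rcases List.append_eq_append_iff.mp hy with ⟨a', ha, -⟩ | ⟨c'', hc, hc2⟩
    · exact ⟨a', ha⟩
    · cases c'' with
      | nil => exact ⟨[], by simpa using hc.symm⟩
      | cons b c'' =>
        simp only [List.cons_append, List.cons.injEq] at hc2
        exfalso
        have hzm : z0 ∈ mid := by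
          rw [hc, ← hc2.1]
          simp
        rcases hz0 with h | h
        · exact hsm (by rw [← h]; simp [hzm])
        · exact htm (by rw [← h]; simp [hzm])
  obtain ⟨a', ha'⟩ := hpre
  have hleny : mid.length ≤ y'.length := by rw [ha']; simp
  obtain ⟨y1, g1, u, c, hy1⟩ := exists_last_three' y' (by omega)
  have hcL : c ∉ L := hyC c (by rw [hy1]; simp)
  have huL : u ∉ L := hyC u (by rw [hy1]; simp)
  have hww : w = (w0 ++ [x0]) ++ (y1 ++ g1 :: u :: c :: z0 :: (y'' ++ (x ++ t :: z))) := by
    rw [hw]
    have e1 : x ++ (w1 ++ s :: (x ++ t :: z)) =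
        x0 :: ((mid ++ (g0 :: (w1 ++ [s]))) ++ (x ++ t :: z)) := by
      conv_lhs =>
        rw [hxm]
      conv_rhs =>
        rw [hxm]
      simp
    rw [e1, hy, hy1]
    simp
  by_cases hc : c ∈ y1
  · obtain ⟨al1, be1, hab⟩ := List.append_of_mem hc
    by_cases hu : u ∈ mid
    · obtain ⟨xi, eta, hxe⟩ := List.append_of_mem hu
      have hxu : x = (x0 :: xi) ++ u :: (eta ++ [g0]) := by
        rw [hxm, hxe]
        simp
      apply hmin1
      rcases hz0 with h | h
      · refine ⟨c, u, s, gs'', hgl'', hgd'', (w0 ++ [x0]) ++ al1, be1 ++ [g1],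
          y'' ++ (x ++ t :: z), by simp, by simp, ?_, ?_⟩
        · rw [hww, hab, h]
          simp
        · exact (hT'' (x0 :: xi) u (eta ++ [g0]) (by simp) (by simp) hxu).prepend _
      · refine ⟨c, u, t, gs, hgl, hgd, (w0 ++ [x0]) ++ al1, be1 ++ [g1],
          y'' ++ (x ++ t :: z), by simp, by simp, ?_, ?_⟩
        · rw [hww, hab, h]
          simp
        · have := (hz.swap u (y1 := x0 :: xi) ((eta ++ [g0]) ++ [t]) (by simp)).prepend y''
          have e : x ++ t :: z = (x0 :: xi) ++ u :: (((eta ++ [g0]) ++ [t]) ++ z) := by
            conv_lhs => rw [hxu]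
            simp
          rw [e]
          exact this
    · obtain ⟨l, hl⟩ := unary_of_avoid_list hA (L := u :: L)
        (List.nodup_cons.mpr ⟨huL, hLnd⟩) (by simp; omega)
      have := hl mid (by
        intro a ha hmem
        rcases List.mem_cons.mp hmem with h | h
        · exact hu (by rw [← h]; exact ha)
        · exact hyC a (by rw [ha']; simp [ha]) h)
      exact hun ⟨[x0], l, mid.length, [g0], by simp, by simp, by rw [← this, hxm]; simp⟩
  · obtain ⟨l, hl⟩ := unary_of_avoid_list hA (L := c :: L)
      (List.nodup_cons.mpr ⟨hcL, hLnd⟩) (by simp; omega)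
    have hy1u := hl y1 (by
      intro a ha hmem
      rcases List.mem_cons.mp hmem with h | h
      · exact hc (by rw [← h]; exact ha)
      · exact hyC a (by rw [hy1]; simp [ha]) h)
    have h1' : mid ++ a' = y1 ++ [g1, u, c] := by rw [← ha', hy1]
    rcases List.append_eq_append_iff.mp h1' with ⟨e, he, -⟩ | ⟨e, he, he2⟩
    · have hpu : mid = List.replicate mid.length l := by
        rw [List.eq_replicate_iff]
        refine ⟨rfl, fun b hb => ?_⟩
        rw [List.eq_replicate_iff] at hy1u
        exact hy1u.2 b (by rw [he]; exact List.mem_append_left _ hb)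
      refine hun ⟨[x0], l, mid.length, [g0], by simp, by simp, ?_⟩
      rw [← hpu, hxm]
      simp
    · have hel : e.length ≤ 3 := by
        have := congrArg List.length he2
        simp at this
        omega
      refine hun ⟨[x0], l, y1.length, e ++ [g0], by simp, by simp; omega, ?_⟩
      rw [← hy1u, hxm, he]
      simp

end Pool.Agent.Lib.MP_235015_lc.All
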