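import Mathlib
import Pool.Agent.Lib.MP_235015_lc.All.Reduce

/-!
# Almost unary matches exist
-/

namespace Pool.Agent.Lib.MP_235015_lc.All

variable {A : Type}

lemma exists_good_aux [Fintype A] {r N : ℕ} (hA : Fintype.card A = r + 3)
    (hN : ∀ y : List A, N ≤ y.length → ∃ s c t : A, Rich s c t (2 * r + 4) y)
    (d : A) (w : List A) : ∀ (n : ℕ) (x gs : List A) (s t : A), x.length ≤ n → x ≠ [] →
    IsM d r x s t gs w → ∃ (p : List A) (l : A) (k : ℕ) (q : List A) (s t : A) (gs : List A),
      p.length ≤ 2 * N + 6 ∧ q.length ≤ 2 * N + 6 ∧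
      IsM d r (p ++ (List.replicate (k + 1) l ++ q)) s t gs w := by
  intro n
  induction n with
  | zero =>
    intro x gs s t hx hne
    exact absurd (List.length_eq_zero_iff.mp (by omega)) hne
  | succ n ih =>
    intro x gs s t hx hne hm
    rcases Nat.lt_or_ge x.length (2 * N + 6) with hlt | hge
    · cases x with
      | nil => exact absurd rfl hne
      | cons a x' =>
        refine ⟨[], a, 0, x', s, t, gs, by simp, by simp at hlt; omega, ?_⟩
        simpa using hm
    · rcases reduceGen hA hN d hm hge with ⟨x', s', t', gs', hne', hlt, hm'⟩ |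
        ⟨p, l, m, q, hp, hq, hx'⟩
      · exact ih x' gs' s' t' (by omega) hne' hm'
      · have hlen : x.length = p.length + (m + q.length) := by rw [hx']; simp
        obtain ⟨k, rfl⟩ : ∃ k, m = k + 1 := ⟨m - 1, by omega⟩
        exact ⟨p, l, k, q, s, t, gs, by omega, by omega, by rw [← hx']; exact hm⟩

/-- There is a bound `M` such that every matched word has a match whose main word is
`p l^(k+1) q` with `p`, `q` of length at most `M`. -/
theorem exists_good [Fintype A] {r : ℕ} (hA : Fintype.card A = r + 3) (d : A) :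
    ∃ M : ℕ, ∀ (w x gs : List A) (s t : A), x ≠ [] → IsM d r x s t gs w →
      ∃ (p : List A) (l : A) (k : ℕ) (q : List A) (s t : A) (gs : List A),
        p.length ≤ M ∧ q.length ≤ M ∧
        IsM d r (p ++ (List.replicate (k + 1) l ++ q)) s t gs w := by
  obtain ⟨N, hN⟩ := exists_rich (A := A) (2 * r + 4)
  exact ⟨2 * N + 6, fun w x gs s t hx hm =>
    exists_good_aux hA hN d w x.length x gs s t (le_refl _) hx hm⟩

end Pool.Agent.Lib.MP_235015_lc.All
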