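import Mathlib
import Pool.Agent.Lib.MP_235015_lc.ProofGrammar

/-!
# A general family of context-free languages
-/

namespace Pool.Agent.Lib.MP_235015_lc.All

open Pool.Agent.Lib.MP_235015_lc

/-- The nonterminals of the grammar. -/
inductive NTg (I : Type) : Type
  | start : NTg I
  | word : NTg I
  | mid : I → NTg I

variable {A I : Type}

/-- Words of the form given by a list of letters (`some a`) and gaps (`none`), the gaps being
filled with arbitrary nonempty words. -/
def TF : List (Option A) → List A → Prop
  | [], z => z = []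
  | none :: T, z => ∃ u v : List A, z = u ++ v ∧ u ≠ [] ∧ TF T v
  | some a :: T, z => ∃ v : List A, z = a :: v ∧ TF T v

/-- The sentential form belonging to a list of letters and gaps. -/
def tfForm : List (Option A) → List (Symbol A (NTg I))
  | [] => []
  | none :: T => Symbol.nonterminal NTg.word :: tfForm T
  | some a :: T => Symbol.terminal a :: tfForm T

/-- The words `w₀ p l^(k+1) q w₁ s p l^(k+1) q z` with `z` of the form `T`. -/
def FormWord (p : List A) (l : A) (q : List A) (s : A) (T : List (Option A)) (w : List A) :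
    Prop :=
  ∃ (k : ℕ) (w0 w1 z : List A), w0 ≠ [] ∧ w1 ≠ [] ∧ TF T z ∧
    w = w0 ++ (p ++ (List.replicate (k + 1) l ++ (q ++ (w1 ++ s ::
      (p ++ (List.replicate (k + 1) l ++ (q ++ z)))))))

/-- Rule `word → a`. -/
def rlA (I : Type) (a : A) : ContextFreeRule A (NTg I) :=
  ⟨NTg.word, [Symbol.terminal a]⟩

/-- Rule `word → a word`. -/
def rlB (I : Type) (a : A) : ContextFreeRule A (NTg I) :=
  ⟨NTg.word, [Symbol.terminal a, Symbol.nonterminal NTg.word]⟩

/-- Rule `mid → l mid l`. -/
def rlC (l : I → A) (i : I) : ContextFreeRule A (NTg I) :=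
  ⟨NTg.mid i, [Symbol.terminal (l i), Symbol.nonterminal (NTg.mid i), Symbol.terminal (l i)]⟩

/-- Rule `mid → l q word s p l`. -/
def rlD (p q : I → List A) (l s : I → A) (i : I) : ContextFreeRule A (NTg I) :=
  ⟨NTg.mid i, Symbol.terminal (l i) ::
    ((q i).map Symbol.terminal ++ Symbol.nonterminal NTg.word :: Symbol.terminal (s i) ::
      ((p i).map Symbol.terminal ++ [Symbol.terminal (l i)]))⟩

/-- Rule `start → word p mid q T`. -/
def rlE (p q : I → List A) (T : I → List (Option A)) (i : I) : ContextFreeRule A (NTg I) :=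
  ⟨NTg.start, Symbol.nonterminal NTg.word :: ((p i).map Symbol.terminal ++
    Symbol.nonterminal (NTg.mid i) :: ((q i).map Symbol.terminal ++ tfForm (T i)))⟩

/-- The set of all rules. -/
def rls (p q : I → List A) (l s : I → A) (T : I → List (Option A)) :
    Set (ContextFreeRule A (NTg I)) :=
  Set.range (rlA I) ∪ (Set.range (rlB I) ∪ (Set.range (rlC l) ∪ (Set.range (rlD p q l s) ∪
    Set.range (rlE p q T))))

lemma rls_finite [Finite A] [Finite I] (p q : I → List A) (l s : I → A)
    (T : I → List (Option A)) : (rls p q l s T).Finite :=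
  (Set.finite_range _).union ((Set.finite_range _).union ((Set.finite_range _).union
    ((Set.finite_range _).union (Set.finite_range _))))

/-- The grammar. -/
noncomputable def grm [Finite A] [Finite I] (p q : I → List A) (l s : I → A)
    (T : I → List (Option A)) : ContextFreeGrammar A where
  NT := NTg I
  initial := NTg.start
  rules := (rls_finite p q l s T).toFinset

/-- The reading of the nonterminals. -/
def rd (p q : I → List A) (l s : I → A) (T : I → List (Option A)) : NTg I → List A → Prop
  | NTg.start, w => ∃ i : I, FormWord (p i) (l i) (q i) (s i) (T i) w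
  | NTg.word, w => w ≠ []
  | NTg.mid i, w => ∃ (k : ℕ) (w1 : List A), w1 ≠ [] ∧
      w = List.replicate (k + 1) (l i) ++ (q i ++ (w1 ++ s i :: (p i ++
        List.replicate (k + 1) (l i))))

lemma sem_tfForm (p q : I → List A) (l s : I → A) (T : I → List (Option A)) :
    ∀ (F : List (Option A)) (z : List A), Sem (rd p q l s T) (tfForm F) z → TF F z := by
  intro F
  induction F with
  | nil => exact fun z h => h
  | cons a F ih =>
    intro z h
    cases a with
    | none =>
      obtain ⟨u, v, hz, hu, hv⟩ := h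
      exact ⟨u, v, hz, hu, ih v hv⟩
    | some a =>
      obtain ⟨v, hz, hv⟩ := h
      exact ⟨v, hz, ih v hv⟩

lemma rd_sound (p q : I → List A) (l s : I → A) (T : I → List (Option A))
    (r : ContextFreeRule A (NTg I)) (hr : r ∈ rls p q l s T) (w : List A)
    (h : Sem (rd p q l s T) r.output w) : rd p q l s T r.input w := by
  rcases hr with ⟨a, rfl⟩ | ⟨a, rfl⟩ | ⟨i, rfl⟩ | ⟨i, rfl⟩ | ⟨i, rfl⟩
  · obtain ⟨w', rfl, -⟩ := h
    exact List.cons_ne_nil _ _
  · obtain ⟨w', rfl, -⟩ := h
    exact List.cons_ne_nil _ _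
  · obtain ⟨w', rfl, u, v, rfl, ⟨k, w1, hw1, rfl⟩, w'', rfl, hnil⟩ := h
    have hnil' : w'' = [] := hnil
    subst hnil'
    refine ⟨k + 1, w1, hw1, ?_⟩
    have e1 : List.replicate (k + 1 + 1) (l i) = l i :: List.replicate (k + 1) (l i) :=
      List.replicate_succ
    have e2 : List.replicate (k + 1 + 1) (l i) = List.replicate (k + 1) (l i) ++ [l i] :=
      List.replicate_succ'
    have e3 : l i :: ((List.replicate (k + 1) (l i) ++ (q i ++ (w1 ++ s i :: (p i ++
        List.replicate (k + 1) (l i))))) ++ [l i]) = (l i :: List.replicate (k + 1) (l i)) ++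
        (q i ++ (w1 ++ s i :: (p i ++ (List.replicate (k + 1) (l i) ++ [l i])))) := by simp
    rw [← e1, ← e2] at e3
    exact e3
  · obtain ⟨w', rfl, h⟩ := h
    rw [sem_terminals_append] at h
    obtain ⟨w'', rfl, u, v, rfl, hu, w3, rfl, h⟩ := h
    rw [sem_terminals_append] at h
    obtain ⟨w4, rfl, w5, rfl, h⟩ := h
    have h' : w5 = [] := h
    subst h'
    exact ⟨0, u, hu, by simp⟩
  · obtain ⟨w0, v, rfl, hw0, h⟩ := h
    rw [sem_terminals_append] at h
    obtain ⟨w', rfl, u, v, rfl, ⟨k, w1, hw1, rfl⟩, h⟩ := h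
    rw [sem_terminals_append] at h
    obtain ⟨z, rfl, h⟩ := h
    exact ⟨i, k, w0, w1, z, hw0, hw1, sem_tfForm p q l s T _ z h, by simp⟩

section gen

variable [Finite A] [Finite I] (p q : I → List A) (l s : I → A) (T : I → List (Option A))

lemma gen_wordg : ∀ w : List A, w ≠ [] →
    Gen (grm p q l s T) [Symbol.nonterminal NTg.word] w := by
  intro w
  induction w with
  | nil => exact fun h => absurd rfl h
  | cons a w ih =>
    intro _
    cases w with
    | nil =>
      refine Gen.rule (g := grm p q l s T) (r := rlA I a) ?_ (Gen.terminal _ a)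
      exact (rls_finite p q l s T).mem_toFinset.mpr (Or.inl ⟨a, rfl⟩)
    | cons b w =>
      refine Gen.rule (g := grm p q l s T) (r := rlB I a) ?_
        (Gen.cons_terminal a (ih (List.cons_ne_nil _ _)))
      exact (rls_finite p q l s T).mem_toFinset.mpr (Or.inr (Or.inl ⟨a, rfl⟩))

lemma gen_midg (i : I) (k : ℕ) (w1 : List A) (hw1 : w1 ≠ []) :
    Gen (grm p q l s T) [Symbol.nonterminal (NTg.mid i)] (List.replicate (k + 1) (l i) ++
      (q i ++ (w1 ++ s i :: (p i ++ List.replicate (k + 1) (l i))))) := by
  induction k with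
  | zero =>
    have h : Gen (grm p q l s T) (rlD p q l s i).output
        (l i :: (q i ++ (w1 ++ (s i :: (p i ++ [l i]))))) := by
      refine Gen.cons_terminal (l i) (Gen.append (Gen.terminals _ _) ?_)
      refine Gen.cons_nonterminal (gen_wordg p q l s T w1 hw1) (Gen.cons_terminal (s i) ?_)
      exact Gen.append (Gen.terminals _ _) (Gen.terminal _ (l i))
    have := Gen.rule (g := grm p q l s T) (r := rlD p q l s i)
      ((rls_finite p q l s T).mem_toFinset.mpr (Or.inr (Or.inr (Or.inr (Or.inl ⟨_, rfl⟩))))) h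
    have e : List.replicate (0 + 1) (l i) ++ (q i ++ (w1 ++ s i :: (p i ++
        List.replicate (0 + 1) (l i)))) = l i :: (q i ++ (w1 ++ (s i :: (p i ++ [l i])))) := by
      simp
    rw [e]
    exact this
  | succ k ih =>
    have h : Gen (grm p q l s T) (rlC l i).output
        (l i :: ((List.replicate (k + 1) (l i) ++ (q i ++ (w1 ++ s i :: (p i ++
        List.replicate (k + 1) (l i))))) ++ [l i])) :=
      Gen.cons_terminal (l i) (Gen.cons_nonterminal ih (Gen.terminal _ (l i)))
    have h2 := Gen.rule (g := grm p q l s T) (r := rlC l i)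
      ((rls_finite p q l s T).mem_toFinset.mpr (Or.inr (Or.inr (Or.inl ⟨_, rfl⟩)))) h
    have e1 : List.replicate (k + 1 + 1) (l i) = l i :: List.replicate (k + 1) (l i) :=
      List.replicate_succ
    have e2 : List.replicate (k + 1 + 1) (l i) = List.replicate (k + 1) (l i) ++ [l i] :=
      List.replicate_succ'
    have e3 : l i :: ((List.replicate (k + 1) (l i) ++ (q i ++ (w1 ++ s i :: (p i ++
        List.replicate (k + 1) (l i))))) ++ [l i]) = (l i :: List.replicate (k + 1) (l i)) ++
        (q i ++ (w1 ++ s i :: (p i ++ (List.replicate (k + 1) (l i) ++ [l i])))) := by simp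
    rw [e3, ← e1, ← e2] at h2
    exact h2

lemma gen_tf : ∀ (F : List (Option A)) (z : List A), TF F z →
    Gen (grm p q l s T) (tfForm F) z := by
  intro F
  induction F with
  | nil =>
    intro z h
    have h' : z = [] := h
    rw [h']
    exact Gen.nil _
  | cons a F ih =>
    intro z h
    cases a with
    | none =>
      obtain ⟨u, v, rfl, hu, hv⟩ := h
      exact Gen.cons_nonterminal (gen_wordg p q l s T u hu) (ih v hv)
    | some a =>
      obtain ⟨v, rfl, hv⟩ := h
      exact Gen.cons_terminal a (ih v hv)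

lemma gen_startg (w : List A) (h : ∃ i : I, FormWord (p i) (l i) (q i) (s i) (T i) w) :
    Gen (grm p q l s T) [Symbol.nonterminal NTg.start] w := by
  obtain ⟨i, k, w0, w1, z, h0, h1, hz, rfl⟩ := h
  have hg : Gen (grm p q l s T) (rlE p q T i).output
      (w0 ++ (p i ++ ((List.replicate (k + 1) (l i) ++
      (q i ++ (w1 ++ s i :: (p i ++ List.replicate (k + 1) (l i))))) ++ (q i ++ z)))) := by
    refine Gen.cons_nonterminal (gen_wordg p q l s T w0 h0) (Gen.append (Gen.terminals _ _) ?_)
    refine Gen.cons_nonterminal (gen_midg p q l s T i k w1 h1) (Gen.append (Gen.terminals _ _) ?_)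
    exact gen_tf p q l s T _ z hz
  have h2 := Gen.rule (g := grm p q l s T) (r := rlE p q T i)
    ((rls_finite p q l s T).mem_toFinset.mpr (Or.inr (Or.inr (Or.inr (Or.inr ⟨_, rfl⟩))))) hg
  have e : w0 ++ (p i ++ ((List.replicate (k + 1) (l i) ++
      (q i ++ (w1 ++ s i :: (p i ++ List.replicate (k + 1) (l i))))) ++ (q i ++ z)))
      = w0 ++ (p i ++ (List.replicate (k + 1) (l i) ++ (q i ++ (w1 ++ s i ::
      (p i ++ (List.replicate (k + 1) (l i) ++ (q i ++ z))))))) := by simp
  rw [← e]
  exact h2

/-- The grammar generates exactly the words of one of the given forms. -/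
theorem mem_grm (w : List A) :
    w ∈ (grm p q l s T).language ↔ ∃ i : I, FormWord (p i) (l i) (q i) (s i) (T i) w := by
  rw [ContextFreeGrammar.mem_language_iff]
  constructor
  · intro h
    exact language_sound (grm p q l s T) (rd p q l s T)
      (fun r hr w hw => rd_sound p q l s T r
        ((rls_finite p q l s T).mem_toFinset.mp hr) w hw) w h
  · intro h
    exact gen_startg p q l s T w h

end gen

end Pool.Agent.Lib.MP_235015_lc.All
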