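import Mathlib
import Pool.Agent.Lib.MP_235015_lc.All.Good
import Pool.Agent.Lib.MP_235015_lc.All.Grammar

/-!
# The matched words form a context-free language
-/

namespace Pool.Agent.Lib.MP_235015_lc.All

variable {A : Type}

/-- Words of length at most `M`. -/
abbrev BWd (A : Type) (M : ℕ) : Type := {p : List A // p.length ≤ M}

instance (A : Type) [Finite A] (M : ℕ) : Finite (BWd A M) :=
  (List.finite_length_le A M).to_subtype

/-- The form of the tail of a match. -/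
def tailForm : A → A → List A → List (Option A)
  | a, _, [] => [none, some a, none]
  | a, b, g :: gs => none :: some a :: none :: some g :: tailForm b g gs

lemma tf_tailForm : ∀ (gs : List A) (a b : A) (z : List A),
    TF (tailForm a b gs) z ↔ Tl a b gs z := by
  intro gs
  induction gs with
  | nil =>
    intro a b z
    constructor
    · rintro ⟨u, v, rfl, hu, v', rfl, u', v'', rfl, hu', hv⟩
      have hv' : v'' = [] := hv
      subst hv'
      exact ⟨u, u', hu, hu', by simp⟩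
    · rintro ⟨w, w', hw, hw', rfl⟩
      exact ⟨w, a :: w', rfl, hw, w', rfl, w', [], by simp, hw', rfl⟩
  | cons g gs ih =>
    intro a b z
    constructor
    · rintro ⟨u, v, rfl, hu, v', rfl, u', v'', rfl, hu', z', rfl, hz'⟩
      exact ⟨u, u', z', hu, hu', rfl, (ih b g z').mp hz'⟩
    · rintro ⟨w, w', z', hw, hw', rfl, hz'⟩
      exact ⟨w, _, rfl, hw, _, rfl, w', _, rfl, hw', z', rfl, (ih b g z').mpr hz'⟩

/-- The index type of the grammar. -/
abbrev Idx (A : Type) (d : A) (r M : ℕ) : Type :=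
  {i : ((BWd A M × A) × (BWd A M × A)) × (A × BWd A r) //
    i.2.2.1.length = r ∧ LastIs d i.2.1 i.2.2.1}

/-- The set of words with a good match is context-free. -/
theorem good_contextFree [Finite A] (d : A) (r M : ℕ) : ∃ g : ContextFreeGrammar A,
    ∀ w : List A, w ∈ g.language ↔
      ∃ (p : List A) (l : A) (k : ℕ) (q : List A) (s t : A) (gs : List A),
        p.length ≤ M ∧ q.length ≤ M ∧
        IsM d r (p ++ (List.replicate (k + 1) l ++ q)) s t gs w := by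
  refine ⟨grm (I := Idx A d r M) (fun i => i.1.1.1.1.1) (fun i => i.1.1.2.1.1)
    (fun i => i.1.1.1.2) (fun i => i.1.1.2.2)
    (fun i => some i.1.2.1 :: tailForm i.1.1.2.2 i.1.2.1 i.1.2.2.1), fun w => ?_⟩
  rw [mem_grm]
  constructor
  · rintro ⟨⟨⟨⟨⟨⟨p, hp⟩, l⟩, ⟨⟨q, hq⟩, s⟩⟩, ⟨t, ⟨gs, hgs⟩⟩⟩, hi1, hi2⟩, k, w0, w1, z, h0, h1, hz,
      rfl⟩
    obtain ⟨z', rfl, hz'⟩ := hz
    exact ⟨p, l, k, q, s, t, gs, hp, hq, hi1, hi2, w0, w1, z', h0, h1, by simp,
      (tf_tailForm gs s t z').mp hz'⟩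
  · rintro ⟨p, l, k, q, s, t, gs, hp, hq, hg1, hg2, w0, w1, z', h0, h1, rfl, hz'⟩
    exact ⟨⟨⟨⟨⟨⟨p, hp⟩, l⟩, ⟨⟨q, hq⟩, s⟩⟩, ⟨t, ⟨gs, hg1.le⟩⟩⟩, hg1, hg2⟩, k, w0, w1, t :: z',
      h0, h1, ⟨z', rfl, (tf_tailForm gs s t z').mpr hz'⟩, by simp⟩

end Pool.Agent.Lib.MP_235015_lc.All
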