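import Mathlib
import Pool.Agent.Lib.MP_235015_lc.All.Climb

/-!
# Test words for non-regularity
-/

namespace Pool.Agent.Lib.MP_235015_lc.All

variable {A : Type}

lemma append_cons_unique {u v u' v' : List A} {d : A} (h : u ++ d :: v = u' ++ d :: v')
    (hu : d ∉ u') (hv : d ∉ v') : u = u' ∧ v = v' := by
  rcases List.append_eq_append_iff.mp h with ⟨e, he, he2⟩ | ⟨e, he, he2⟩
  · cases e with
    | nil =>
      simp at he he2
      exact ⟨he.symm, he2⟩
    | cons b e =>
      simp only [List.cons_append, List.cons.injEq] at he2
      exfalso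
      apply hu
      rw [he, ← he2.1]
      simp
  · cases e with
    | nil =>
      simp at he he2
      exact ⟨he, he2.symm⟩
    | cons b e =>
      simp only [List.cons_append, List.cons.injEq] at he2
      exfalso
      apply hv
      rw [he2.2]
      simp

/-- The tail of the test words. -/
def tw : A → A → List A → List A
  | a, _, [] => [a, a, a]
  | a, b, g :: gs => [a, a, a] ++ g :: tw b g gs

lemma tl_tw : ∀ (gs : List A) (a b : A), Tl a b gs (tw a b gs) := by
  intro gs
  induction gs with
  | nil =>
    intro a b
    exact ⟨[a], [a], by simp, by simp, rfl⟩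
  | cons g gs ih =>
    intro a b
    exact ⟨[a], [a], tw b g gs, by simp, by simp, rfl, ih b g⟩

/-- Reading a test word backwards. -/
lemma tw_bwd (d : A) : ∀ (gs : List A) (a b : A) (P P' : List A) (a' b' : A) (gs' z' : List A),
    gs'.length = gs.length → LastIs d b gs → LastIs d b' gs' → (a :: b :: gs).Nodup →
    (∀ c ∈ b :: gs, c ∉ P) → P' ++ b' :: z' = P ++ b :: tw a b gs → Tl a' b' gs' z' →
    P' = P ∧ b' = b ∧ a' = a := by
  intro gs
  induction gs with
  | nil =>
    intro a b P P' a' b' gs' z' hlen hl hl' hnd hP heq hT
    have hgs' : gs' = [] := List.length_eq_zero_iff.mp (by simpa using hlen)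
    subst hgs'
    have hb : b = d := hl
    have hb' : b' = d := hl'
    have hbb : b' = b := by rw [hb, hb']
    subst hbb
    have hab : a ≠ b' := by
      intro h
      rw [List.nodup_cons] at hnd
      exact hnd.1 (by rw [h]; simp)
    obtain ⟨h1, h2⟩ := append_cons_unique heq (hP b' (by simp)) (by simp [tw, Ne.symm hab])
    refine ⟨h1, rfl, ?_⟩
    obtain ⟨w, w', hw, hw', rfl⟩ := hT
    have : a' ∈ tw a b' [] := by rw [← h2]; simp
    simpa [tw] using this
  | cons g gs ih =>
    intro a b P P' a' b' gs' z' hlen hl hl' hnd hP heq hT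
    cases gs' with
    | nil => simp at hlen
    | cons g' gs' =>
      obtain ⟨w, w', z'', hw, hw', rfl, hT'⟩ := hT
      have hnd' := hnd
      rw [List.nodup_cons] at hnd
      obtain ⟨hanot, hnd1⟩ := hnd
      have hnd1' := hnd1
      rw [List.nodup_cons] at hnd1
      obtain ⟨hbnot, hnd2⟩ := hnd1
      have hab : a ≠ b := by
        intro h
        exact hanot (by rw [h]; simp)
      obtain ⟨e1, e2, e3⟩ := ih b g (P ++ b :: [a, a, a]) (P' ++ b' :: (w ++ a' :: w')) b' g' gs'
        z'' (by simpa using hlen) hl hl' hnd1' (by
          intro c hc hmem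
          simp only [List.mem_append, List.mem_cons, List.not_mem_nil, or_false] at hmem
          rcases hmem with h | h | h | h | h
          · exact hP c (List.mem_cons_of_mem _ hc) h
          · exact hbnot (by rw [← h]; exact hc)
          · exact hanot (by rw [← h]; exact List.mem_cons_of_mem _ hc)
          · exact hanot (by rw [← h]; exact List.mem_cons_of_mem _ hc)
          · exact hanot (by rw [← h]; exact List.mem_cons_of_mem _ hc)) (by
          simp only [tw] at heq
          simp only [List.append_assoc, List.cons_append, List.nil_append] at heq ⊢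
          exact heq) hT'
      subst e3
      obtain ⟨h1, h2⟩ := append_cons_unique e1 (hP b' (by simp)) (by simp [Ne.symm hab])
      refine ⟨h1, rfl, ?_⟩
      have : a' ∈ [a, a, a] := by rw [← h2]; simp
      simpa using this

lemma final_count [DecidableEq A] {s c : A} (hsc : s ≠ c) {m n : ℕ} {w0 x w1 : List A}
    (h : w0 ++ (x ++ (w1 ++ s :: x)) = s :: (List.replicate m c ++ s :: s ::
      List.replicate n c)) : n ≤ m := by
  have hcount : n ≤ x.count c := by
    have e7 : (w0 ++ (x ++ w1)) ++ s :: x =
        (s :: (List.replicate m c ++ [s])) ++ s :: List.replicate n c := by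
      simp only [List.append_assoc, List.cons_append, List.nil_append] at h ⊢
      exact h
    rcases List.append_eq_append_iff.mp e7 with ⟨e, he, he2⟩ | ⟨e, he, he2⟩
    · have := congrArg (List.count c) he2
      simp [hsc] at this
      omega
    · cases e with
      | nil =>
        simp at he2
        rw [← he2]
        simp
      | cons b' e =>
        simp only [List.cons_append, List.cons.injEq] at he2
        exfalso
        have : s ∈ List.replicate n c := by rw [he2.2]; simp
        simp [hsc] at this
  have htot := congrArg (List.count c) h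
  simp [hsc] at htot
  omega

/-- The test words. -/
def testWord (s t c : A) (gs : List A) (m n : ℕ) : List A :=
  (s :: List.replicate m c) ++ (s :: s :: (List.replicate n c ++ t :: tw s t gs))

lemma testWord_fwd (d s t c : A) (gs : List A) (hl : LastIs d t gs) (n : ℕ) :
    IsM d gs.length (List.replicate n c) s t gs (testWord s t c gs n n) :=
  ⟨rfl, hl, [s], [s], tw s t gs, by simp, by simp, by simp [testWord], tl_tw gs s t⟩

lemma testWord_bwd (d s t c : A) (gs : List A) (hl : LastIs d t gs)
    (hnd : (c :: s :: t :: gs).Nodup) {m n : ℕ} {x gs' : List A} {s' t' : A}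
    (hm : IsM d gs.length x s' t' gs' (testWord s t c gs m n)) : n ≤ m := by
  classical
  obtain ⟨hgl, hgd, w0, w1, z, h0, h1, hw, hz⟩ := hm
  have hcs : s ≠ c := by
    rintro rfl
    simp at hnd
  have hnd2 : (s :: t :: gs).Nodup := (List.nodup_cons.mp hnd).2
  have e1 : (w0 ++ (x ++ (w1 ++ s' :: x))) ++ t' :: z =
      (s :: (List.replicate m c ++ s :: s :: List.replicate n c)) ++ t :: tw s t gs := by
    rw [testWord] at hw
    simp only [List.append_assoc, List.cons_append] at hw ⊢
    exact hw.symm
  obtain ⟨h1', h2', h3'⟩ := tw_bwd d gs s t _ _ s' t' gs' z hgl hl hgd hnd2 (by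
    intro b hb hmem
    have hbs : b ≠ s := by
      rintro rfl
      exact (List.nodup_cons.mp hnd2).1 hb
    have hbc : b ≠ c := by
      rintro rfl
      exact (List.nodup_cons.mp hnd).1 (List.mem_cons_of_mem _ hb)
    simp [hbs, hbc] at hmem) e1 hz
  subst h3'
  exact final_count hcs h1'

/-- A language with such test words is not regular. -/
theorem not_isRegular_of_test (L : Language A) (u v : ℕ → List A)
    (h1 : ∀ n, 1 ≤ n → u n ++ v n ∈ L) (h2 : ∀ m n, 1 ≤ n → u m ++ v n ∈ L → n ≤ m) :
    ¬ L.IsRegular := by
  intro hreg
  have hfin := hreg.finite_range_leftQuotient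
  have key : ∀ i j : ℕ, i < j → L.leftQuotient (u i) ≠ L.leftQuotient (u j) := by
    intro i j hij heq
    have hj : v j ∈ L.leftQuotient (u j) := by
      rw [Language.mem_leftQuotient]
      exact h1 j (by omega)
    rw [← heq, Language.mem_leftQuotient] at hj
    have := h2 i j (by omega) hj
    omega
  have hinj : Function.Injective (fun m : ℕ => L.leftQuotient (u m)) := by
    intro i j hij
    rcases lt_trichotomy i j with h | h | h
    · exact absurd hij (key i j h)
    · exact h
    · exact absurd hij.symm (key j i h)
  have hinf := Set.infinite_range_of_injective hinj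
  apply hinf
  refine hfin.subset ?_
  rintro K ⟨m, rfl⟩
  exact ⟨_, rfl⟩

end Pool.Agent.Lib.MP_235015_lc.All
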