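import Mathlib
import Pool.Agent.Lib.MP_235015_lc.Defs
import Pool.Agent.Lib.MP_235015_lc.All.Climb

/-!
# The chain patterns
-/

namespace Pool.Agent.Lib.MP_235015_lc.All

open Pool.Agent.Lib.MP_235015_lc

variable {A : Type}

/-- The variable with number `n + 1` as a pattern word. -/
def V (n : ℕ) : PatternWord A := FreeMonoid.of (Sum.inl n.succPNat)

/-- The `j`-th letter symbol: a variable, or the terminal `d` for `j = r + 1`. -/
def sy (d : A) (r j : ℕ) : PatternWord A :=
  if j = r + 1 then FreeMonoid.of (Sum.inr d) else V (3 * j + 3)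

/-- The chain part of the pattern. -/
def chainPat (d : A) (r : ℕ) : ℕ → ℕ → PatternWord A
  | j, 0 => V (3 * j + 4) * (sy d r j * V (3 * j + 5))
  | j, n + 1 => V (3 * j + 4) * (sy d r j * (V (3 * j + 5) * (sy d r (j + 2) *
      chainPat d r (j + 1) n)))

/-- The whole pattern. -/
def allPat (d : A) (r : ℕ) : PatternWord A :=
  V 1 * (V 0 * (V 2 * (sy d r 0 * (V 0 * (sy d r 1 * chainPat d r 0 r)))))

lemma allPat_ne_one (d : A) (r : ℕ) : allPat d r ≠ 1 := by
  intro h
  have := congrArg FreeMonoid.length h
  simp [allPat, V] at this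

/-- The letters `h m, h (m+1), …`. -/
def hs (h : ℕ → A) : ℕ → ℕ → List A
  | _, 0 => []
  | m, n + 1 => h m :: hs h (m + 1) n

lemma hs_length (h : ℕ → A) : ∀ (n m : ℕ), (hs h m n).length = n := by
  intro n
  induction n with
  | zero => intro m; rfl
  | succ n ih => intro m; simp [hs, ih]

lemma lastIs_hs (d : A) (h : ℕ → A) : ∀ (n j : ℕ), LastIs d (h j) (hs h (j + 1) n) ↔
    h (j + n) = d := by
  intro n
  induction n with
  | zero => intro j; rfl
  | succ n ih =>
    intro j
    have := ih (j + 1)
    have e : j + 1 + n = j + (n + 1) := by omega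
    rw [e] at this
    exact this

lemma hs_getD (d : A) : ∀ (l : List A) (g : ℕ → A) (m : ℕ),
    (∀ i < l.length, g (m + i) = l.getD i d) → hs g m l.length = l := by
  intro l
  induction l with
  | nil => intro g m _; rfl
  | cons a l ih =>
    intro g m h
    have h0 := h 0 (by simp)
    simp at h0
    have h1 := ih g (m + 1) (by
      intro i hi
      have := h (i + 1) (by simp; omega)
      simp at this
      rw [List.getD_eq_getElem?_getD, ← this]
      congr 1
      omega)
    simp [hs, h0, h1]

lemma chain_fwd (d : A) (r : ℕ) (σ : PatternWord A →* FreeMonoid A) (hN : Nonerasing σ)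
    (pre suf : ℕ → List A) (h : ℕ → A)
    (hdec : ∀ j, FreeMonoid.toList (σ (sy d r j)) = pre j ++ h j :: suf j) :
    ∀ (n j : ℕ), Tl (h j) (h (j + 1)) (hs h (j + 2) n)
      (FreeMonoid.toList (σ (chainPat d r j n))) := by
  have hV : ∀ n : ℕ, FreeMonoid.toList (σ (V n)) ≠ [] := by
    intro n hn
    exact hN n.succPNat (FreeMonoid.toList.injective hn)
  intro n
  induction n with
  | zero =>
    intro j
    refine ⟨FreeMonoid.toList (σ (V (3 * j + 4))) ++ pre j,
      suf j ++ FreeMonoid.toList (σ (V (3 * j + 5))), by simp [hV], by simp [hV], ?_⟩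
    simp only [chainPat, map_mul, FreeMonoid.toList_mul, hdec]
    simp
  | succ n ih =>
    intro j
    refine ⟨FreeMonoid.toList (σ (V (3 * j + 4))) ++ pre j,
      suf j ++ (FreeMonoid.toList (σ (V (3 * j + 5))) ++ pre (j + 2)),
      suf (j + 2) ++ FreeMonoid.toList (σ (chainPat d r (j + 1) n)), by simp [hV], by simp [hV],
      ?_, (ih (j + 1)).prepend _⟩
    simp only [chainPat, map_mul, FreeMonoid.toList_mul, hdec]
    simp

/-- Evaluation of the chain with one-letter values. -/
def ev (h : ℕ → A) (F F' : ℕ → List A) : ℕ → ℕ → List A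
  | j, 0 => F j ++ h j :: F' j
  | j, n + 1 => F j ++ h j :: (F' j ++ h (j + 2) :: ev h F F' (j + 1) n)

lemma ev_congr (h : ℕ → A) (F F' G G' : ℕ → List A) : ∀ (n j : ℕ), (∀ i, j ≤ i → F i = G i) →
    (∀ i, j ≤ i → F' i = G' i) → ev h F F' j n = ev h G G' j n := by
  intro n
  induction n with
  | zero =>
    intro j h1 h2
    simp [ev, h1 j (le_refl _), h2 j (le_refl _)]
  | succ n ih =>
    intro j h1 h2
    simp only [ev, h1 j (le_refl _), h2 j (le_refl _)]
    rw [ih (j + 1) (fun i hi => h1 i (by omega)) (fun i hi => h2 i (by omega))]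

lemma chain_bwd (h : ℕ → A) : ∀ (n j : ℕ) (z : List A),
    Tl (h j) (h (j + 1)) (hs h (j + 2) n) z →
    ∃ F F' : ℕ → List A, (∀ i, F i ≠ []) ∧ (∀ i, F' i ≠ []) ∧ z = ev h F F' j n := by
  intro n
  induction n with
  | zero =>
    intro j z hz
    obtain ⟨w, w', hw, hw', rfl⟩ := hz
    exact ⟨fun _ => w, fun _ => w', fun _ => hw, fun _ => hw', rfl⟩
  | succ n ih =>
    intro j z hz
    obtain ⟨w, w', z', hw, hw', rfl, hz'⟩ := hz
    obtain ⟨F, F', hF, hF', rfl⟩ := ih (j + 1) z' hz'
    refine ⟨fun i => if i = j then w else F i, fun i => if i = j then w' else F' i, ?_, ?_, ?_⟩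
    · intro i
      dsimp only
      split_ifs
      · exact hw
      · exact hF i
    · intro i
      dsimp only
      split_ifs
      · exact hw'
      · exact hF' i
    · simp only [ev, if_true]
      rw [ev_congr h (fun i => if i = j then w else F i) (fun i => if i = j then w' else F' i)
        F F' n (j + 1) (fun i hi => if_neg (by omega)) (fun i hi => if_neg (by omega))]

/-- The NE-pattern language of the chain pattern consists of the matched words. -/
theorem mem_allPat (d : A) (r : ℕ) (w : List A) :
    w ∈ nePatternLanguage (allPat d r) ↔ ∃ x s t gs, x ≠ [] ∧ IsM d r x s t gs w := by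
  constructor
  · rintro ⟨σ, hT, hN, rfl⟩
    have hV : ∀ n : ℕ, FreeMonoid.toList (σ (V n)) ≠ [] := by
      intro n hn
      exact hN n.succPNat (FreeMonoid.toList.injective hn)
    have hsy : ∀ j, FreeMonoid.toList (σ (sy d r j)) ≠ [] := by
      intro j
      unfold sy
      split_ifs
      · rw [hT d]
        simp
      · exact hV _
    have hex : ∀ j : ℕ, ∃ (pre : List A) (h : A) (suf : List A),
        FreeMonoid.toList (σ (sy d r j)) = pre ++ h :: suf ∧ (j = 0 → suf = []) ∧
          (j ≠ 0 → pre = []) := by
      intro j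
      by_cases hj : j = 0
      · rcases List.eq_nil_or_concat (FreeMonoid.toList (σ (sy d r j))) with h | ⟨L, b, h⟩
        · exact absurd h (hsy j)
        · exact ⟨L, b, [], by rw [h, List.concat_eq_append], fun _ => rfl,
            fun h' => absurd hj h'⟩
      · cases h : FreeMonoid.toList (σ (sy d r j)) with
        | nil => exact absurd h (hsy j)
        | cons a l => exact ⟨[], a, l, rfl, fun h' => absurd h' hj, fun _ => rfl⟩
    choose pre h suf hdec hsuf hpre using hex
    have hchain := chain_fwd d r σ hN pre suf h hdec r 0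
    have hlast : h (r + 1) = d := by
      have h1 := hdec (r + 1)
      have h2 : FreeMonoid.toList (σ (sy d r (r + 1))) = [d] := by
        unfold sy
        rw [if_pos rfl, hT d]
        rfl
      rw [h2, hpre (r + 1) (by omega)] at h1
      simp at h1
      exact h1.1.symm
    refine ⟨FreeMonoid.toList (σ (V 0)), h 0, h 1, hs h 2 r, hV 0, hs_length h r 2, ?_,
      FreeMonoid.toList (σ (V 1)), FreeMonoid.toList (σ (V 2)) ++ pre 0,
      suf 1 ++ FreeMonoid.toList (σ (chainPat d r 0 r)), hV 1, by simp [hV], ?_,
      hchain.prepend _⟩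
    · rw [show (2 : ℕ) = 1 + 1 from rfl, lastIs_hs d h r 1, Nat.add_comm]
      exact hlast
    · simp only [allPat, map_mul, FreeMonoid.toList_mul, hdec, hsuf 0 rfl, hpre 1 (by omega)]
      simp
  · rintro ⟨x, s, t, gs, hx, hgl, hgd, w0, w1, z, h0, h1, rfl, hz⟩
    let h : ℕ → A := fun j => (s :: t :: gs).getD j d
    have hh0 : h 0 = s := rfl
    have hh1 : h 1 = t := rfl
    have hhs : hs h 2 r = gs := by
      have := hs_getD d gs h 2 (by
        intro i hi
        have e : 2 + i = i + 1 + 1 := by omega
        rw [e]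
        simp [h])
      rw [hgl] at this
      exact this
    have hlast : h (r + 1) = d := by
      have h2 : LastIs d (h 1) (hs h (1 + 1) r) := by
        rw [hh1]
        have : hs h (1 + 1) r = gs := hhs
        rw [this]
        exact hgd
      rw [lastIs_hs d h r 1, Nat.add_comm] at h2
      exact h2
    have hz2 : Tl (h 0) (h (0 + 1)) (hs h (0 + 2) r) z := by
      have e : hs h (0 + 2) r = gs := hhs
      rw [e]
      exact hz
    obtain ⟨F, F', hF, hF', hzev⟩ := chain_bwd h r 0 z hz2
    let f : ℕ → List A := fun n =>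
      if n = 0 then x else if n = 1 then w0 else if n = 2 then w1 else
      if n % 3 = 0 then [h (n / 3 - 1)] else if n % 3 = 1 then F (n / 3 - 1) else F' (n / 3 - 1)
    have hf : ∀ n, f n ≠ [] := by
      intro n
      simp only [f]
      split_ifs <;> first | assumption | exact hF _ | exact hF' _ | simp
    let σ : PatternWord A →* FreeMonoid A :=
      FreeMonoid.lift (Sum.elim (fun i => FreeMonoid.ofList (f i.natPred)) FreeMonoid.of)
    have hσV : ∀ n : ℕ, FreeMonoid.toList (σ (V n)) = f n := by
      intro n
      simp [σ, V]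
    have hσt : ∀ a : A, σ (FreeMonoid.of (Sum.inr a)) = FreeMonoid.of a := by
      intro a
      simp [σ]
    have hσs : ∀ j : ℕ, FreeMonoid.toList (σ (sy d r j)) = [h j] := by
      intro j
      unfold sy
      split_ifs with hj
      · rw [hσt, hj, hlast]
        rfl
      · rw [hσV]
        have e1 : (3 * j + 3) % 3 = 0 := by omega
        have e2 : (3 * j + 3) / 3 - 1 = j := by omega
        simp [f, e2]
    have hσF : ∀ j : ℕ, FreeMonoid.toList (σ (V (3 * j + 4))) = F j := by
      intro j
      rw [hσV]
      have e1 : (3 * j + 4) % 3 = 1 := by omega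
      have e2 : (3 * j + 4) / 3 - 1 = j := by omega
      simp [f, e1, e2]
    have hσF' : ∀ j : ℕ, FreeMonoid.toList (σ (V (3 * j + 5))) = F' j := by
      intro j
      rw [hσV]
      have e1 : (3 * j + 5) % 3 = 2 := by omega
      have e2 : (3 * j + 5) / 3 - 1 = j := by omega
      simp [f, e1, e2]
    have hσc : ∀ (n j : ℕ), FreeMonoid.toList (σ (chainPat d r j n)) = ev h F F' j n := by
      intro n
      induction n with
      | zero =>
        intro j
        simp only [chainPat, map_mul, FreeMonoid.toList_mul, hσs, hσF, hσF', ev]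
        simp
      | succ n ih =>
        intro j
        simp only [chainPat, map_mul, FreeMonoid.toList_mul, hσs, hσF, hσF', ev, ih]
        simp
    refine ⟨σ, hσt, ?_, ?_⟩
    · intro i hi
      have h1 := hσV i.natPred
      have h2 : FreeMonoid.toList (σ (FreeMonoid.of (Sum.inl i))) = [] := by rw [hi]; rfl
      unfold V at h1
      rw [PNat.succPNat_natPred, h2] at h1
      exact hf _ h1.symm
    · simp only [allPat, map_mul, FreeMonoid.toList_mul, hσs, hσc, hσV, hzev]
      simp [f, hh0, hh1]

end Pool.Agent.Lib.MP_235015_lc.All
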