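import Mathlib
import Pool.Agent.Lib.MP_235015_lc.Defs
import Pool.Agent.Lib.MP_235015_lc.All.Pattern
import Pool.Agent.Lib.MP_235015_lc.All.Grammar
import Pool.Agent.Lib.MP_235015_lc.All.CF
import Pool.Agent.Lib.MP_235015_lc.All.NonReg

/-!
# The two-letter case
-/

namespace Pool.Agent.Lib.MP_235015_lc.All

open Pool.Agent.Lib.MP_235015_lc

variable {A : Type}

/-- The pattern `w₀ x w₁ d x`. -/
def twoPat (d : A) : PatternWord A :=
  V 1 * (V 0 * (V 2 * (FreeMonoid.of (Sum.inr d) * V 0)))

lemma twoPat_ne_one (d : A) : twoPat d ≠ 1 := by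
  intro h
  have := congrArg FreeMonoid.length h
  simp [twoPat, V] at this

/-- Words of the form `w₀ x w₁ d x`. -/
def IsM2 (d : A) (x w : List A) : Prop :=
  ∃ w0 w1 : List A, w0 ≠ [] ∧ w1 ≠ [] ∧ w = w0 ++ (x ++ (w1 ++ d :: x))

lemma mem_twoPat (d : A) (w : List A) :
    w ∈ nePatternLanguage (twoPat d) ↔ ∃ x, x ≠ [] ∧ IsM2 d x w := by
  constructor
  · rintro ⟨σ, hT, hN, rfl⟩
    have hV : ∀ n : ℕ, FreeMonoid.toList (σ (V n)) ≠ [] := by
      intro n hn
      exact hN n.succPNat (FreeMonoid.toList.injective hn)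
    refine ⟨FreeMonoid.toList (σ (V 0)), hV 0, FreeMonoid.toList (σ (V 1)),
      FreeMonoid.toList (σ (V 2)), hV 1, hV 2, ?_⟩
    simp only [twoPat, map_mul, FreeMonoid.toList_mul, hT d]
    simp
  · rintro ⟨x, hx, w0, w1, h0, h1, rfl⟩
    let f : ℕ → List A := fun n =>
      if n = 0 then x else if n = 1 then w0 else if n = 2 then w1 else [d]
    have hf : ∀ n, f n ≠ [] := by
      intro n
      simp only [f]
      split_ifs <;> first | assumption | simp
    let σ : PatternWord A →* FreeMonoid A :=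
      FreeMonoid.lift (Sum.elim (fun i => FreeMonoid.ofList (f i.natPred)) FreeMonoid.of)
    have hσV : ∀ n : ℕ, FreeMonoid.toList (σ (V n)) = f n := by
      intro n
      simp [σ, V]
    have hσt : ∀ a : A, σ (FreeMonoid.of (Sum.inr a)) = FreeMonoid.of a := by
      intro a
      simp [σ]
    refine ⟨σ, hσt, ?_, ?_⟩
    · intro i hi
      have h1 := hσV i.natPred
      have h2 : FreeMonoid.toList (σ (FreeMonoid.of (Sum.inl i))) = [] := by rw [hi]; rfl
      unfold V at h1
      rw [PNat.succPNat_natPred, h2] at h1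
      exact hf _ h1.symm
    · simp only [twoPat, map_mul, FreeMonoid.toList_mul, hσt, hσV]
      simp [f]

lemma exists_good2 [Fintype A] (hA : Fintype.card A = 2) (d : A) (w : List A) :
    ∀ (n : ℕ) (x : List A), x.length ≤ n → x ≠ [] → IsM2 d x w →
    ∃ (l : A) (k : ℕ) (q : List A), q.length ≤ 1 ∧ IsM2 d (List.replicate (k + 1) l ++ q) w := by
  classical
  obtain ⟨c, hc⟩ : ∃ c : A, ∀ b : A, b ≠ d → b = c := by
    have hcard : (Finset.univ.erase d : Finset A).card = 1 := by
      rw [Finset.card_erase_of_mem (Finset.mem_univ d), Finset.card_univ, hA]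
    obtain ⟨c, hc⟩ := Finset.card_eq_one.mp hcard
    refine ⟨c, fun b hb => ?_⟩
    have : b ∈ Finset.univ.erase d := Finset.mem_erase.mpr ⟨hb, Finset.mem_univ _⟩
    rw [hc] at this
    simpa using this
  intro n
  induction n with
  | zero =>
    intro x hx hne
    exact absurd (List.length_eq_zero_iff.mp (by omega)) hne
  | succ n ih =>
    intro x hx hne hm
    obtain ⟨xi, g, hxg⟩ : ∃ xi g, x = xi ++ [g] := by
      rcases List.eq_nil_or_concat x with h | ⟨L, b, h⟩
      · exact absurd h hne
      · exact ⟨L, b, by rw [h, List.concat_eq_append]⟩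
    by_cases hd : d ∈ xi
    · obtain ⟨a, b, hab⟩ := List.append_of_mem hd
      obtain ⟨w0, w1, h0, h1, hw⟩ := hm
      refine ih (b ++ [g]) ?_ (by simp) ⟨w0 ++ (a ++ [d]), w1 ++ d :: a, by simp, by simp, ?_⟩
      · rw [hxg, hab] at hx
        simp at hx ⊢
        omega
      · rw [hw, hxg, hab]
        simp
    · have hu : xi = List.replicate xi.length c := by
        rw [List.eq_replicate_iff]
        refine ⟨rfl, fun b hb => hc b ?_⟩
        rintro rfl
        exact hd hb
      cases xi with
      | nil =>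
        refine ⟨g, 0, [], by simp, ?_⟩
        rw [hxg] at hm
        simpa using hm
      | cons e xi =>
        refine ⟨c, xi.length, [g], by simp, ?_⟩
        rw [List.length_cons] at hu
        rw [← hu, ← hxg]
        exact hm

theorem twoPat_isContextFree [Fintype A] (hA : Fintype.card A = 2) (d : A) :
    (nePatternLanguage (twoPat d)).IsContextFree := by
  refine ⟨grm (I := A × BWd A 1) (fun _ => []) (fun i => i.2.1) (fun i => i.1) (fun _ => d)
    (fun _ => []), ?_⟩
  ext w
  rw [mem_grm, mem_twoPat]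
  constructor
  · rintro ⟨⟨l, ⟨q, hq⟩⟩, k, w0, w1, z, h0, h1, hz, rfl⟩
    have hz' : z = [] := hz
    subst hz'
    exact ⟨List.replicate (k + 1) l ++ q, by simp [List.replicate_succ], w0, w1, h0, h1, by simp⟩
  · rintro ⟨x, hx, hm⟩
    obtain ⟨l, k, q, hq, w0, w1, h0, h1, rfl⟩ :=
      exists_good2 hA d w x.length x (le_refl _) hx hm
    exact ⟨⟨l, ⟨q, hq⟩⟩, k, w0, w1, [], h0, h1, rfl, by simp⟩

theorem twoPat_not_isRegular (d c : A) (hcd : d ≠ c) :
    ¬ (nePatternLanguage (twoPat d)).IsRegular := by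
  classical
  apply not_isRegular_of_test _ (fun m => d :: List.replicate m c)
    (fun n => d :: d :: List.replicate n c)
  · intro n hn
    rw [mem_twoPat]
    refine ⟨List.replicate n c, ?_, [d], [d], by simp, by simp, by simp⟩
    intro h
    have := congrArg List.length h
    simp at this
    omega
  · intro m n hn hmem
    rw [mem_twoPat] at hmem
    obtain ⟨x, hx, w0, w1, h0, h1, hw⟩ := hmem
    exact final_count hcd (by rw [← hw]; simp)

end Pool.Agent.Lib.MP_235015_lc.All
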