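import Mathlib
import Pool.Agent.Lib.MP_235015_lc.Defs
import Pool.Agent.Lib.MP_235015_lc.All.Two

/-!
# Context-free nonregular NE-pattern languages over every alphabet with at least two letters
-/

namespace Pool.Agent.Lib.MP_235015_lc.All

open Pool.Agent.Lib.MP_235015_lc

variable {A : Type}

theorem allPat_isContextFree [Fintype A] {r : ℕ} (hA : Fintype.card A = r + 3) (d : A) :
    (nePatternLanguage (allPat d r)).IsContextFree := by
  obtain ⟨M, hM⟩ := exists_good hA d
  obtain ⟨g, hg⟩ := good_contextFree d r M
  refine ⟨g, ?_⟩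
  ext w
  rw [hg, mem_allPat]
  constructor
  · rintro ⟨p, l, k, q, s, t, gs, -, -, hm⟩
    exact ⟨_, s, t, gs, by simp [List.replicate_succ], hm⟩
  · rintro ⟨x, s, t, gs, hx, hm⟩
    exact hM w x gs s t hx hm

lemma exists_lastIs : ∀ (gs : List A) (b : A), ∃ d, LastIs d b gs := by
  intro gs
  induction gs with
  | nil => exact fun b => ⟨b, rfl⟩
  | cons g gs ih => exact fun _ => ih g

theorem allPat_not_isRegular (d s t c : A) (gs : List A) (hl : LastIs d t gs)
    (hnd : (c :: s :: t :: gs).Nodup) :
    ¬ (nePatternLanguage (allPat d gs.length)).IsRegular := by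
  apply not_isRegular_of_test _ (fun m => s :: List.replicate m c)
    (fun n => s :: s :: (List.replicate n c ++ t :: tw s t gs))
  · intro n hn
    rw [mem_allPat]
    refine ⟨List.replicate n c, s, t, gs, ?_, testWord_fwd d s t c gs hl n⟩
    intro h
    have := congrArg List.length h
    simp at this
    omega
  · intro m n hn hmem
    rw [mem_allPat] at hmem
    obtain ⟨x, s', t', gs', hx, hm⟩ := hmem
    exact testWord_bwd d s t c gs hl hnd hm

/-- Main theorem. -/
theorem main (A : Type) [Fintype A] (hA : 2 ≤ Fintype.card A) :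
    ∃ α : PatternWord A, α ≠ 1 ∧ (nePatternLanguage α).IsContextFree ∧
      ¬ (nePatternLanguage α).IsRegular := by
  classical
  rcases Nat.lt_or_ge (Fintype.card A) 3 with hlt | hge
  · have h2 : Fintype.card A = 2 := by omega
    obtain ⟨d, c, hdc⟩ := Fintype.exists_pair_of_one_lt_card (α := A) (by omega)
    exact ⟨twoPat d, twoPat_ne_one d, twoPat_isContextFree h2 d, twoPat_not_isRegular d c hdc⟩
  · have hlen : (Finset.univ : Finset A).toList.length = Fintype.card A := by
      simp
    have hnd := (Finset.univ : Finset A).nodup_toList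
    match hl : (Finset.univ : Finset A).toList, hlen, hnd with
    | [], hlen, _ => simp at hlen; omega
    | [_], hlen, _ => simp at hlen; omega
    | [_, _], hlen, _ => simp at hlen; omega
    | c :: s :: t :: gs, hlen, hnd =>
      obtain ⟨d, hd⟩ := exists_lastIs gs t
      have hcard : Fintype.card A = gs.length + 3 := by
        rw [← hlen]
        simp
      exact ⟨allPat d gs.length, allPat_ne_one d _, allPat_isContextFree hcard d,
        allPat_not_isRegular d s t c gs hd hnd⟩

end Pool.Agent.Lib.MP_235015_lc.All
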